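import Mathlib

/-! Abelian squares in binary words: the staircase function, second differences, crossing lemma and
the averaging identity. -/

namespace H76AbSq

open Finset

/-- second difference of `F` at `k` with step `d` -/
def E (F : ℤ → ℤ) (k d : ℤ) : ℤ := F (k - d) + F (k + d) - 2 * F k

/-- the cell `(k, d)` is not strictly convex (in the strong sense) -/
def NP (F : ℤ → ℤ) (k d : ℤ) : Prop := F (k - d) + F (k + d) ≤ 2 * F (k + 1)

/-- `(d, v)` is realized by a three term progression of lattice points of the staircase with centre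
on the vertical line `k` -/
def Ty (F : ℤ → ℤ) (k d v : ℤ) : Prop :=
  ∃ y0 y1 y2 : ℤ, F (k - d) ≤ y0 ∧ y0 ≤ F (k - d + 1) ∧ F k ≤ y1 ∧ y1 ≤ F (k + 1) ∧
    F (k + d) ≤ y2 ∧ y2 ≤ F (k + d + 1) ∧ y1 - y0 = v ∧ y2 - y1 = v

theorem ty_of {F : ℤ → ℤ} (hF : Monotone F) {k d m : ℤ} (h1 : F k ≤ m) (h2 : m ≤ F (k + 1))
    (h3 : F (k - d) + F (k + d) ≤ 2 * m) (h4 : 2 * m ≤ F (k - d + 1) + F (k + d + 1)) :
    ∃ v, Ty F k d v := by
  have a0 := hF (show k - d ≤ k - d + 1 by omega)
  have a2 := hF (show k + d ≤ k + d + 1 by omega)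
  rcases le_total (F (k - d + 1)) (2 * m - F (k + d)) with h | h
  · exact ⟨m - F (k - d + 1), F (k - d + 1), m, 2 * m - F (k - d + 1), by omega, by omega, h1, h2,
      by omega, by omega, by omega, by omega⟩
  · exact ⟨m - (2 * m - F (k + d)), 2 * m - F (k + d), m, F (k + d), by omega, by omega, h1, h2,
      by omega, by omega, by omega, by omega⟩

/-- crossing lemma -/
theorem crossing {F : ℤ → ℤ} (hF : Monotone F) {k1 d : ℤ} (h1 : NP F k1 d) (n : ℕ)
    (h2 : 0 ≤ E F (k1 + 1 + n) d) : ∃ k v, k1 ≤ k ∧ k < k1 + 1 + n ∧ Ty F k d v := by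
  induction n with
  | zero =>
    simp only [E, NP, Nat.cast_zero, add_zero] at h1 h2
    have e1 : k1 + 1 - d = k1 - d + 1 := by ring
    have e2 : k1 + 1 + d = k1 + d + 1 := by ring
    rw [e1, e2] at h2
    obtain ⟨v, hv⟩ := ty_of hF (k := k1) (d := d) (m := F (k1 + 1)) (hF (by omega)) le_rfl h1
      (by omega)
    exact ⟨k1, v, le_rfl, by simp, hv⟩
  | succ n ih =>
    by_cases h : 0 ≤ E F (k1 + 1 + n) d
    · obtain ⟨k, v, hk1, hk2, hv⟩ := ih h
      exact ⟨k, v, hk1, by push_cast; omega, hv⟩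
    · push Not at h
      set k := k1 + 1 + (n : ℤ) with hk
      have e0 : k1 + 1 + ((n + 1 : ℕ) : ℤ) = k + 1 := by push_cast; omega
      rw [e0] at h2
      simp only [E] at h h2
      have e1 : k + 1 - d = k - d + 1 := by ring
      have e2 : k + 1 + d = k + d + 1 := by ring
      rw [e1, e2] at h2
      have e3 := hF (show k ≤ k + 1 by omega)
      obtain ⟨v, hv⟩ := ty_of hF (k := k) (d := d) (m := F k) le_rfl e3 (by omega) (by omega)
      exact ⟨k, v, by omega, by omega, hv⟩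

/-- sum of `a` consecutive values -/
def S (a : ℕ) (f : ℤ → ℤ) (x : ℤ) : ℤ := ∑ i ∈ range a, f (x + i)

/-- first difference with step `b` -/
def Dl (b : ℤ) (f : ℤ → ℤ) (x : ℤ) : ℤ := f (x + b) - f x

theorem Dl_comm (a b : ℤ) (f : ℤ → ℤ) : Dl a (Dl b f) = Dl b (Dl a f) := by
  funext x
  simp only [Dl]
  have e : x + a + b = x + b + a := by ring
  rw [e]; ring

theorem S_comm (a b : ℕ) (f : ℤ → ℤ) : S a (S b f) = S b (S a f) := by
  funext x
  simp only [S]
  rw [Finset.sum_comm]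
  refine sum_congr rfl fun i _ => sum_congr rfl fun j _ => ?_
  congr 1; ring

theorem S_succ (a : ℕ) (f : ℤ → ℤ) (x : ℤ) : S (a + 1) f x = S a f x + f (x + a) := by
  simp [S, Finset.sum_range_succ]

theorem S_Dl_one (b : ℕ) (f : ℤ → ℤ) (x : ℤ) :
    ∑ j ∈ range b, (f (x + j + 1) - f (x + j)) = f (x + b) - f x := by
  have := Finset.sum_range_sub (fun j : ℕ => f (x + j)) b
  simp only [Nat.cast_add, Nat.cast_one, Nat.cast_zero, add_zero] at this
  rw [← this]
  refine sum_congr rfl fun j _ => ?_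
  congr 2; ring

theorem S_Dl (a b : ℕ) (f : ℤ → ℤ) : S a (Dl b f) = S b (Dl a f) := by
  funext x
  induction a with
  | zero => simp [S, Dl]
  | succ a ih =>
    rw [S_succ, ih]
    simp only [S, Dl, Nat.cast_add, Nat.cast_one]
    have h := S_Dl_one b f (x + a)
    have e : ∀ j : ℕ, f (x + j + (a + 1)) - f (x + j) =
        (f (x + j + a) - f (x + j)) + (f (x + a + j + 1) - f (x + a + j)) := by
      intro j
      have e1 : x + (j : ℤ) + (a + 1) = x + a + j + 1 := by ring
      have e2 : x + (j : ℤ) + a = x + a + j := by ring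
      rw [e1, e2]; ring
    rw [sum_congr rfl fun j _ => e j, sum_add_distrib, h]

theorem S_S (a b : ℕ) (f : ℤ → ℤ) : S a (S a (Dl b (Dl b f))) = S b (S b (Dl a (Dl a f))) := by
  rw [S_Dl a b (Dl b f), Dl_comm a b f, S_comm a b, S_Dl a b (Dl a f)]

theorem Dl_Dl (b : ℤ) (f : ℤ → ℤ) (x : ℤ) : Dl b (Dl b f) x = E f (x + b) b := by
  simp only [Dl, E]
  have e : x + b - b = x := by ring
  rw [e]; ring

theorem S_S_E (a : ℕ) (b : ℤ) (f : ℤ → ℤ) (x : ℤ) :
    S a (S a (Dl b (Dl b f))) x = ∑ i ∈ range a, ∑ j ∈ range a, E f (x + b + i + j) b := by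
  simp only [S, Dl_Dl]
  refine sum_congr rfl fun i _ => sum_congr rfl fun j _ => ?_
  congr 1; ring

/-- two levels cannot be convex resp. concave on a common long interval -/
theorem no_mix {F : ℤ → ℤ} {a b : ℕ} (ha : 0 < a) (x : ℤ)
    (hneg : ∀ k, x ≤ k → k ≤ x + 2 * a - 2 → E F k b < 0)
    (hpos : ∀ k, x - b + a ≤ k → k ≤ x + a + b - 2 → 0 ≤ E F k a) : False := by
  have h := congrFun (S_S a b F) (x - b)
  rw [S_S_E, S_S_E] at h
  have h1 : ∑ i ∈ range a, ∑ j ∈ range a, E F (x - b + b + i + j) b < 0 := by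
    have : ∀ i ∈ range a, ∑ j ∈ range a, E F (x - b + b + i + j) b < 0 := by
      intro i hi
      apply Finset.sum_neg
      · intro j hj
        simp only [mem_range] at hi hj
        exact hneg _ (by omega) (by omega)
      · exact ⟨0, by simpa using ha⟩
    exact Finset.sum_neg this ⟨0, by simpa using ha⟩
  have h2 : 0 ≤ ∑ i ∈ range b, ∑ j ∈ range b, E F (x - b + a + i + j) a := by
    refine sum_nonneg fun i hi => sum_nonneg fun j hj => ?_
    simp only [mem_range] at hi hj
    exact hpos _ (by omega) (by omega)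
  omega

end H76AbSq
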