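import Pool.Agent.H76AbSq.Local

/-! For every position `p` many types whose minimum position is close to `p`. -/

namespace H76AbSq

open Finset

/-- non convex cell inside `[lo, hi]` -/
def C (F : ℤ → ℤ) (lo hi c d : ℤ) : Prop := lo ≤ c - d ∧ c + d ≤ hi ∧ 1 ≤ d ∧ NP F c d

/-- Step A: the highest non convex cell in a cone -/
theorem stepA {F : ℤ → ℤ} (hF : Monotone F) {lo hi p : ℤ} (h1 : lo < p) (h2 : p < hi) :
    ∃ c0 D : ℤ, C F lo hi c0 D ∧ |c0 - p| ≤ 32 * D ∧
      ∀ c d, C F lo hi c d → 2 * D ≤ d → 16 * d < |c - c0| := by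
  classical
  set Sp : Finset (ℤ × ℤ) := ((Icc lo hi) ×ˢ (Icc 1 (hi - lo))).filter
    (fun q => C F lo hi q.1 q.2 ∧ |q.1 - p| ≤ 32 * q.2) with hSp
  have hne : Sp.Nonempty := by
    refine ⟨(p, 1), ?_⟩
    simp only [hSp, mem_filter, mem_product, mem_Icc]
    refine ⟨⟨⟨by omega, by omega⟩, by omega, by omega⟩, ⟨by omega, by omega, le_rfl, ?_⟩, by simp⟩
    have := hF (show p - 1 ≤ p + 1 by omega)
    simp only [NP]; omega
  obtain ⟨q, hq, hmax⟩ := Finset.exists_max_image Sp (fun q => q.2) hne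
  simp only [hSp, mem_filter, mem_product, mem_Icc] at hq
  refine ⟨q.1, q.2, hq.2.1, hq.2.2, fun c d hC hd => ?_⟩
  by_contra hcon
  push Not at hcon
  have hD := hq.2.1.2.2.1
  have hle : |c - p| ≤ 32 * d := by
    have := abs_sub_le c q.1 p
    have := hq.2.2
    omega
  obtain ⟨g1, g2, g3, g4⟩ := hC
  have := hmax (c, d) (by
    simp only [hSp, mem_filter, mem_product, mem_Icc]
    exact ⟨⟨⟨by omega, by omega⟩, by omega, by omega⟩, ⟨g1, g2, g3, g4⟩, hle⟩)
  simp only at this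
  omega

/-- Step C: dyadic climbing -/
theorem stepC {F : ℤ → ℤ} {lo hi cd d : ℤ} (h : C F lo hi cd d) :
    ∃ (ce : ℤ) (t : ℕ), C F lo hi ce (2 ^ t * d) ∧ |ce - cd| ≤ 4 * (2 ^ t * d) ∧
      ∀ (s : ℕ) (c : ℤ), 1 ≤ s → C F lo hi c (2 ^ s * (2 ^ t * d)) →
        2 * (2 ^ s * (2 ^ t * d)) < |c - ce| := by
  classical
  set P : ℕ → Prop := fun t => ∃ c', C F lo hi c' (2 ^ t * d) ∧ |c' - cd| ≤ 4 * (2 ^ t * d) with hP
  have hd : 1 ≤ d := h.2.2.1
  have hP0 : P 0 := ⟨cd, by simpa using h, by simp; omega⟩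
  have hbdd : ∀ t, P t → t ≤ (hi - lo).toNat := by
    rintro t ⟨c', ⟨a1, a2, a3, a4⟩, -⟩
    have h2 : (2 : ℤ) ^ t * d ≤ hi - lo := by omega
    have h3 : (t : ℤ) < 2 ^ t := by exact_mod_cast Nat.lt_two_pow_self
    have h4 : (2 : ℤ) ^ t ≤ 2 ^ t * d := le_mul_of_one_le_right (by positivity) hd
    omega
  set t := Nat.findGreatest P (hi - lo).toNat with ht
  have hPt : P t := Nat.findGreatest_spec (P := P) (Nat.zero_le _) hP0
  obtain ⟨ce, hce1, hce2⟩ := hPt
  refine ⟨ce, t, hce1, hce2, fun s c hs hc => ?_⟩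
  by_contra hcon
  push Not at hcon
  have e1 : (2 : ℤ) ^ s * (2 ^ t * d) = 2 ^ (t + s) * d := by rw [pow_add]; ring
  have hs2 : (2 : ℤ) ≤ 2 ^ s := by
    calc (2 : ℤ) = 2 ^ 1 := by norm_num
      _ ≤ 2 ^ s := pow_le_pow_right₀ (by norm_num) hs
  have hpos : 0 < (2 : ℤ) ^ t * d := by positivity
  have hle : |c - cd| ≤ 4 * (2 ^ (t + s) * d) := by
    rw [← e1]
    have := abs_sub_le c ce cd
    nlinarith
  have hPs : P (t + s) := ⟨c, by rw [← e1]; exact hc, hle⟩
  have := Nat.le_findGreatest (P := P) (hbdd _ hPs) hPs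
  omega

/-- Step D: a type near a non convex cell -/
theorem stepD {F : ℤ → ℤ} (hF : Monotone F) {lo hi ce e : ℤ} (h : C F lo hi ce e)
    (hpure : ∀ c, C F lo hi c (2 * e) → 4 * e < |c - ce|)
    (hlo : lo + e ≤ ce) (hhi : ce + 1 + 3 * e ≤ hi) :
    ∃ xe w, ce ≤ xe ∧ xe ≤ ce + 2 * e ∧ Ty F xe e w := by
  obtain ⟨g1, g2, g3, g4⟩ := h
  have hex : ∃ n : ℕ, (n : ℤ) ≤ 2 * e ∧ 0 ≤ E F (ce + 1 + n) e := by
    by_contra hcon
    push Not at hcon
    have a1 := hcon 0 (by push_cast; omega)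
    have a2 := hcon e.toNat (by omega)
    have a3 := hcon (2 * e).toNat (by omega)
    have e1 : ((e.toNat : ℕ) : ℤ) = e := by omega
    have e2 : (((2 * e).toNat : ℕ) : ℤ) = 2 * e := by omega
    rw [e1] at a2
    rw [e2] at a3
    simp only [E, Nat.cast_zero, add_zero] at a1 a2 a3
    have hN : ¬ NP F (ce + 1 + e) (2 * e) := by
      intro hN
      have := hpure (ce + 1 + e) ⟨by omega, by omega, by omega, hN⟩
      rw [show ce + 1 + e - ce = e + 1 by ring, abs_of_nonneg (by omega)] at this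
      omega
    simp only [NP] at hN
    push Not at hN
    have hm := hF (show ce + 1 + e ≤ ce + 1 + e + 1 by omega)
    have e3 : ce + 1 + e - 2 * e = ce + 1 - e := by ring
    have e4 : ce + 1 + e + 2 * e = ce + 1 + 2 * e + e := by ring
    have e5 : ce + 1 + e - e = ce + 1 := by ring
    have e6 : ce + 1 + e + e = ce + 1 + 2 * e := by ring
    have e7 : ce + 1 + 2 * e - e = ce + 1 + e := by ring
    rw [e3, e4] at hN
    rw [e5, e6] at a2
    rw [e7] at a3
    omega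
  obtain ⟨n, hn1, hn2⟩ := hex
  obtain ⟨k, w, hk1, hk2, hw⟩ := crossing hF g4 n hn2
  exact ⟨k, w, hk1, by omega, hw⟩

theorem fiber_card {D : ℤ} (s : Finset ℤ) (hs : ∀ d ∈ s, 1 ≤ d ∧ d ≤ D ∧ D < 12 * d)
    (t : ℤ → ℕ) (e : ℤ) (he : ∀ d ∈ s, 2 ^ t d * d = e) : s.card ≤ 4 := by
  classical
  rcases s.eq_empty_or_nonempty with rfl | hne
  · simp
  obtain ⟨m, hm, hmin⟩ := Finset.exists_min_image s id hne
  simp only [id] at hmin
  have hsub : s ⊆ (range 4).image (fun i => 2 ^ i * m) := by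
    intro d hd
    have h1 := he d hd
    have h2 := he m hm
    have h3 := hmin d hd
    have hd1 := hs d hd
    have hm1 := hs m hm
    have htle : t d ≤ t m := by
      by_contra hcon
      push Not at hcon
      have : (2 : ℤ) ^ t m < 2 ^ t d := pow_lt_pow_right₀ (by norm_num) hcon
      have h5 : (2 : ℤ) ^ t m * m < 2 ^ t d * d := by
        calc (2 : ℤ) ^ t m * m < 2 ^ t d * m := by
              apply mul_lt_mul_of_pos_right this; omega
          _ ≤ 2 ^ t d * d := mul_le_mul_of_nonneg_left h3 (by positivity)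
      omega
    obtain ⟨i, hi⟩ := Nat.exists_eq_add_of_le htle
    have h6 : d = 2 ^ i * m := by
      have : (2 : ℤ) ^ t d * d = 2 ^ t d * (2 ^ i * m) := by
        rw [h1, ← h2, hi, pow_add]; ring
      exact mul_left_cancel₀ (by positivity) this
    have hi4 : i < 4 := by
      by_contra hcon
      push Not at hcon
      have : (16 : ℤ) ≤ 2 ^ i := by
        calc (16 : ℤ) = 2 ^ 4 := by norm_num
          _ ≤ 2 ^ i := pow_le_pow_right₀ (by norm_num) hcon
      have : 16 * m ≤ 2 ^ i * m := mul_le_mul_of_nonneg_right this (by omega)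
      omega
    rw [mem_image]
    exact ⟨i, by simpa using hi4, h6.symm⟩
  exact (card_le_card hsub).trans (card_image_le.trans (by simp))

/-- The local statement. `A w` is a minimum point of `w.1 * F k - w.2 * k` on `[lo, hi]`. -/
theorem local_types {F : ℤ → ℤ} (hF : Monotone F) {lo hi R p : ℤ}
    (hR : ∀ c d, C F lo hi c d → d ≤ R) (A : ℤ × ℤ → ℤ)
    (hA : ∀ w : ℤ × ℤ, 1 ≤ w.1 → lo ≤ A w ∧ A w ≤ hi ∧
      ∀ k, lo ≤ k → k ≤ hi → w.1 * F (A w) - w.2 * A w ≤ w.1 * F k - w.2 * k)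
    (hp1 : lo + 50 * R ≤ p) (hp2 : p + 50 * R ≤ hi) (hR1 : 1 ≤ R) :
    ∃ (D : ℤ) (V : Finset (ℤ × ℤ)), 1 ≤ D ∧ D ≤ 48 * (V.card : ℤ) ∧
      ∀ w ∈ V, 1 ≤ w.1 ∧ w.1 < 2 * D ∧ D < 12 * w.1 ∧ |A w - p| ≤ 66 * D ∧
        ∃ k, lo ≤ k - w.1 ∧ k + w.1 ≤ hi ∧ Ty F k w.1 w.2 := by
  classical
  obtain ⟨c0, D, hC0, hc0, hA0⟩ := stepA hF (show lo < p by omega) (show p < hi by omega)
  have hD1 : 1 ≤ D := hC0.2.2.1
  have hDR : D ≤ R := hR _ _ hC0
  -- step B
  set Zs : Finset ℤ := (Icc 1 D).filter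
    (fun d => ∃ k, c0 - D ≤ k - d ∧ k + d ≤ c0 + D ∧ NP F k d) with hZs
  have hDZ : D ∈ Zs := by
    simp only [hZs, mem_filter, mem_Icc]
    exact ⟨⟨hD1, le_rfl⟩, c0, le_rfl, le_rfl, hC0.2.2.2⟩
  have hcard1 : D ≤ 6 * (Zs.card : ℤ) := by
    have h1 := k1F hF hD1 hC0.2.2.2 (Zs.erase D) (by
      intro d hd1 hd2 hk
      rw [mem_erase]
      refine ⟨by omega, ?_⟩
      simp only [hZs, mem_filter, mem_Icc]
      exact ⟨⟨hd1, by omega⟩, hk⟩)
    rw [card_erase_of_mem hDZ] at h1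
    have : 1 ≤ Zs.card := Finset.card_pos.mpr ⟨D, hDZ⟩
    omega
  set Dd := Zs.filter (fun d => D < 12 * d) with hDd
  have hcard2 : D ≤ 12 * (Dd.card : ℤ) := by
    have h1 : Zs ⊆ Dd ∪ Icc 1 (D / 12) := by
      intro d hd
      rw [mem_union, hDd, mem_filter, mem_Icc]
      by_cases h : D < 12 * d
      · exact Or.inl ⟨hd, h⟩
      · simp only [hZs, mem_filter, mem_Icc] at hd
        exact Or.inr ⟨hd.1.1, by omega⟩
    have h2 := card_le_card h1
    have h3 := card_union_le Dd (Icc 1 (D / 12))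
    rw [Int.card_Icc] at h3
    omega
  -- for every level in Dd a type
  have hlev : ∀ d ∈ Dd, ∃ (t : ℕ) (w : ℤ), 1 ≤ 2 ^ t * d ∧ 2 ^ t * d < 2 * D ∧
      |A (2 ^ t * d, w) - p| ≤ 66 * D ∧
      ∃ k, lo ≤ k - 2 ^ t * d ∧ k + 2 ^ t * d ≤ hi ∧ Ty F k (2 ^ t * d) w := by
    intro d hd
    simp only [hDd, hZs, mem_filter, mem_Icc] at hd
    obtain ⟨⟨⟨hd1, hdD⟩, cd, hcd1, hcd2, hcd3⟩, hd12⟩ := hd
    have hc0p := hc0
    rw [abs_le] at hc0
    have hCd : C F lo hi cd d := ⟨by omega, by omega, hd1, hcd3⟩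
    obtain ⟨ce, t, hCe, hce, htop⟩ := stepC hCd
    set e := 2 ^ t * d with he
    have he1 : 1 ≤ e := hCe.2.2.1
    have hcecd := hce
    rw [abs_le] at hce
    have heD : e < 2 * D := by
      by_contra hcon
      push Not at hcon
      have h1 := hA0 _ _ hCe hcon
      have h2 : |ce - c0| ≤ 5 * e := by rw [abs_le]; constructor <;> omega
      omega
    -- the type
    have htop1 : ∀ c, C F lo hi c (2 * e) → 4 * e < |c - ce| := by
      intro c hc
      have := htop 1 c le_rfl (by simpa using hc)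
      rw [pow_one] at this
      omega
    obtain ⟨xe, w, hxe1, hxe2, hTy⟩ := stepD hF hCe htop1 (by omega) (by omega)
    have hloc := localize (D := D) (lo := lo) (hi := hi) (A := A (e, w)) hF he1 heD hTy
      (by
        intro t' ht' hlo hN
        have hp2' : (2 : ℤ) ≤ 2 ^ t' := by
          calc (2 : ℤ) = 2 ^ 1 := by norm_num
            _ ≤ 2 ^ t' := pow_le_pow_right₀ (by norm_num) ht'
        have hp3 : 2 * e ≤ 2 ^ t' * e := mul_le_mul_of_nonneg_right hp2' (by omega)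
        have hp4 : (2 : ℤ) ^ (t' + 1) * e = 2 * (2 ^ t' * e) := by rw [pow_succ]; ring
        have h1 := htop t' (xe + e - 2 ^ t' * e) ht' ⟨by omega, by omega, by omega, hN⟩
        have h2 : |xe + e - 2 ^ t' * e - ce| ≤ 2 * (2 ^ t' * e) := by
          rw [abs_le]; constructor <;> omega
        omega)
      (by
        intro t' ht' hlo hN
        have hp2' : (2 : ℤ) ≤ 2 ^ t' := by
          calc (2 : ℤ) = 2 ^ 1 := by norm_num
            _ ≤ 2 ^ t' := pow_le_pow_right₀ (by norm_num) ht'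
        have hp3 : 2 * e ≤ 2 ^ t' * e := mul_le_mul_of_nonneg_right hp2' (by omega)
        have hp4 : (2 : ℤ) ^ (t' + 1) * e = 2 * (2 ^ t' * e) := by rw [pow_succ]; ring
        have h1 := htop t' (xe - e + 2 ^ t' * e) ht' ⟨by omega, by omega, by omega, hN⟩
        have h2 : |xe - e + 2 ^ t' * e - ce| ≤ 2 * (2 ^ t' * e) := by
          rw [abs_le]; constructor <;> omega
        omega)
      (by
        intro c d' h1 h2 h3 h4 hN
        have h5 := hA0 c d' ⟨h1, by omega, by omega, hN⟩ h3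
        have h6 : |c - c0| ≤ 16 * d' := by rw [abs_le]; constructor <;> omega
        omega)
      (by
        intro c d' h1 h2 h3 h4 hN
        have h5 := hA0 c d' ⟨by omega, h2, by omega, hN⟩ h3
        have h6 : |c - c0| ≤ 16 * d' := by rw [abs_le]; constructor <;> omega
        omega)
      (hA (e, w) he1).1 (hA (e, w) he1).2.1 (by omega) (by omega) (hA (e, w) he1).2.2
    refine ⟨t, w, he1, heD, ?_, xe, by omega, by omega, hTy⟩
    show |A (e, w) - p| ≤ 66 * D
    rw [abs_le] at hloc ⊢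
    constructor <;> omega
  choose! t w h1 h2 h3 h4 using hlev
  set f : ℤ → ℤ × ℤ := fun d => (2 ^ t d * d, w d) with hf
  refine ⟨D, Dd.image f, hD1, ?_, ?_⟩
  · have hc := Finset.card_le_mul_card_image (f := f) Dd 4 (by
      intro a ha
      refine fiber_card (D := D) _ ?_ t a.1 ?_
      · intro d hd
        simp only [mem_filter, hDd, hZs, mem_Icc] at hd
        exact ⟨hd.1.1.1.1, hd.1.1.1.2, hd.1.2⟩
      · intro d hd
        rw [mem_filter] at hd
        rw [← hd.2])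
    omega
  · intro q hq
    rw [mem_image] at hq
    obtain ⟨d, hd, rfl⟩ := hq
    refine ⟨h1 d hd, h2 d hd, ?_, h3 d hd, h4 d hd⟩
    simp only [hf]
    have hd' := hd
    simp only [mem_filter, hDd, hZs, mem_Icc] at hd'
    have : (1 : ℤ) ≤ 2 ^ t d := one_le_pow₀ (by norm_num)
    have : d ≤ 2 ^ t d * d := le_mul_of_one_le_left (by omega) this
    omega

end H76AbSq
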