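import Pool.Agent.H76AbSq.Cone

/-! Double counting: few types force a short interval. -/

namespace H76AbSq

open Finset

theorem count_types {F : ℤ → ℤ} (hF : Monotone F) {lo hi R : ℤ}
    (hR : ∀ c d, C F lo hi c d → d ≤ R) (hR1 : 1 ≤ R) (TY : Finset (ℤ × ℤ))
    (hTY : ∀ e w k, 1 ≤ e → lo ≤ k - e → k + e ≤ hi → Ty F k e w → (e, w) ∈ TY) :
    hi - lo - 100 * R + 1 ≤ 152160 * (TY.card : ℤ) := by
  classical
  by_cases hlen : hi - 50 * R < lo + 50 * R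
  · have : (0 : ℤ) ≤ TY.card := by positivity
    omega
  push Not at hlen
  -- the minimum positions
  have hexA : ∀ w : ℤ × ℤ, ∃ a, lo ≤ a ∧ a ≤ hi ∧
      ∀ k, lo ≤ k → k ≤ hi → w.1 * F a - w.2 * a ≤ w.1 * F k - w.2 * k := by
    intro w
    obtain ⟨a, ha, hmin⟩ := Finset.exists_min_image (Icc lo hi) (fun k => w.1 * F k - w.2 * k)
      ⟨lo, by rw [mem_Icc]; omega⟩
    rw [mem_Icc] at ha
    exact ⟨a, ha.1, ha.2, fun k h1 h2 => hmin k (by rw [mem_Icc]; exact ⟨h1, h2⟩)⟩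
  choose A hA1 hA2 hA3 using hexA
  set P := Icc (lo + 50 * R) (hi - 50 * R) with hP
  have hloc : ∀ p ∈ P, ∃ (D : ℤ) (V : Finset (ℤ × ℤ)), 1 ≤ D ∧ D ≤ 48 * (V.card : ℤ) ∧
      ∀ w ∈ V, 1 ≤ w.1 ∧ w.1 < 2 * D ∧ D < 12 * w.1 ∧ |A w - p| ≤ 66 * D ∧
        ∃ k, lo ≤ k - w.1 ∧ k + w.1 ≤ hi ∧ Ty F k w.1 w.2 := by
    intro p hp
    rw [hP, mem_Icc] at hp
    exact local_types hF hR A (fun w _ => ⟨hA1 w, hA2 w, hA3 w⟩) hp.1 (by omega) hR1
  choose! D V hD1 hDV hV using hloc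
  have hVTY : ∀ p ∈ P, V p ⊆ TY := by
    intro p hp w hw
    obtain ⟨h1, -, -, -, k, hk1, hk2, hk3⟩ := hV p hp w hw
    exact hTY w.1 w.2 k h1 hk1 hk2 hk3
  -- weights
  have hsum1 : (P.card : ℚ) ≤ ∑ p ∈ P, 48 * ∑ w ∈ TY, if w ∈ V p then (1 : ℚ) / D p else 0 := by
    rw [card_eq_sum_ones]
    push_cast
    refine sum_le_sum fun p hp => ?_
    have hDp : (0 : ℚ) < D p := by exact_mod_cast (hD1 p hp)
    rw [← Finset.sum_filter, sum_const, nsmul_eq_mul]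
    have hf : TY.filter (fun w => w ∈ V p) = V p := by
      ext w; simp only [mem_filter]
      exact ⟨fun h => h.2, fun h => ⟨hVTY p hp h, h⟩⟩
    rw [hf]
    have h2 : (D p : ℚ) ≤ 48 * (V p).card := by exact_mod_cast hDV p hp
    rw [mul_one_div, ← mul_div_assoc, le_div_iff₀ hDp, one_mul]
    exact h2
  have hswap : ∑ p ∈ P, 48 * ∑ w ∈ TY, (if w ∈ V p then (1 : ℚ) / D p else 0) =
      ∑ w ∈ TY, 48 * ∑ p ∈ P, (if w ∈ V p then (1 : ℚ) / D p else 0) := by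
    simp only [mul_sum]
    rw [sum_comm]
  have hfib : ∀ w ∈ TY, 48 * ∑ p ∈ P, (if w ∈ V p then (1 : ℚ) / D p else 0) ≤ 152160 := by
    intro w _
    rw [← Finset.sum_filter]
    set Q := P.filter (fun p => w ∈ V p) with hQ
    rcases Q.eq_empty_or_nonempty with h0 | hne
    · rw [h0]; simp
    obtain ⟨p0, hp0⟩ := hne
    have hp0' := hp0
    rw [hQ, mem_filter] at hp0'
    have hw1 : 1 ≤ w.1 := (hV p0 hp0'.1 w hp0'.2).1
    have hw1q : (0 : ℚ) < w.1 := by exact_mod_cast hw1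
    have hQsub : Q ⊆ Icc (A w - 792 * w.1) (A w + 792 * w.1) := by
      intro p hp
      rw [hQ, mem_filter] at hp
      obtain ⟨-, -, h3, h4, -⟩ := hV p hp.1 w hp.2
      rw [abs_le] at h4
      rw [mem_Icc]
      omega
    have hQcard : (Q.card : ℤ) ≤ 1585 * w.1 := by
      have h1 := card_le_card hQsub
      rw [Int.card_Icc] at h1
      omega
    have hterm : ∀ p ∈ Q, (1 : ℚ) / D p ≤ 2 / w.1 := by
      intro p hp
      rw [hQ, mem_filter] at hp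
      obtain ⟨-, h2, -, -, -⟩ := hV p hp.1 w hp.2
      have hDp : (0 : ℚ) < D p := by exact_mod_cast (hD1 p hp.1)
      rw [div_le_div_iff₀ hDp hw1q, one_mul]
      have : (w.1 : ℚ) < 2 * D p := by exact_mod_cast h2
      linarith
    have h1 : ∑ p ∈ Q, (1 : ℚ) / D p ≤ Q.card * (2 / w.1) := by
      have := Finset.sum_le_card_nsmul Q (fun p => (1 : ℚ) / D p) (2 / w.1) hterm
      rwa [nsmul_eq_mul] at this
    have h2 : (Q.card : ℚ) * (2 / w.1) ≤ 3170 := by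
      rw [mul_div_assoc', div_le_iff₀ hw1q]
      have : (Q.card : ℚ) ≤ 1585 * w.1 := by exact_mod_cast hQcard
      linarith
    linarith
  have hsum2 : ∑ w ∈ TY, 48 * ∑ p ∈ P, (if w ∈ V p then (1 : ℚ) / D p else 0) ≤
      TY.card * 152160 := by
    have := Finset.sum_le_card_nsmul TY _ _ hfib
    rwa [nsmul_eq_mul] at this
  have hfinal : (P.card : ℚ) ≤ TY.card * 152160 := by
    rw [hswap] at hsum1
    exact hsum1.trans hsum2
  have hfinal' : (P.card : ℤ) ≤ TY.card * 152160 := by exact_mod_cast hfinal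
  rw [hP, Int.card_Icc] at hfinal'
  omega

end H76AbSq
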