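import Pool.Agent.H76AbSq.Max

/-! Localisation of a type near the minimum of `e * F k - v * k`. -/

namespace H76AbSq

open Finset

theorem exists_pow_mul {e Z : ℤ} (he : 1 ≤ e) (h : 2 * e < 2 * Z) :
    ∃ t : ℕ, 2 ≤ t ∧ 2 * Z ≤ 2 ^ t * e ∧ 2 ^ t * e < 4 * Z := by
  have hex : ∃ t : ℕ, 2 * Z ≤ 2 ^ t * e := by
    obtain ⟨n, hn⟩ := pow_unbounded_of_one_lt (2 * Z) (show (1 : ℤ) < 2 by norm_num)
    exact ⟨n, by nlinarith [pow_pos (show (0 : ℤ) < 2 by norm_num) n]⟩
  classical
  have hs := Nat.find_spec hex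
  set t := Nat.find hex with ht
  have h0 : t ≠ 0 := by
    intro h0; rw [h0] at hs; simp at hs; omega
  have h1 : t ≠ 1 := by
    intro h0; rw [h0] at hs; simp at hs; omega
  have hlt := Nat.find_min hex (show t - 1 < Nat.find hex by rw [← ht]; omega)
  push Not at hlt
  have e1 : (2 : ℤ) ^ t * e = 2 * (2 ^ (t - 1) * e) := by
    rw [← mul_assoc, ← pow_succ']; congr 2; omega
  exact ⟨t, by omega, hs, by rw [e1]; omega⟩

theorem loc_left {u v : ℤ → ℤ} {lo x e D : ℤ} (huv : ∀ k, u k ≤ v k)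
    (he : 1 ≤ e) (heD : e < 2 * D)
    (h0 : u x ≤ v (x - 2 * e))
    (hch : ∀ t : ℕ, 1 ≤ t → lo ≤ x - 2 ^ (t + 1) * e →
      2 * v (x - 2 ^ t * e) < u (x - 2 ^ (t + 1) * e) + u x)
    (hpure : ∀ y d, lo ≤ y → 2 * D ≤ d → x - y + 15 * D ≤ 16 * d → Pure2 u v y x d)
    {y : ℤ} (hy : lo ≤ y) (hyx : y ≤ x - (15 * D + 12)) : u x < u y := by
  by_contra hcon
  push Not at hcon
  obtain ⟨Z, hZ1, hZ2⟩ : ∃ Z : ℤ, 7 * Z ≤ x - y ∧ x - y < 7 * Z + 7 :=
    ⟨(x - y) / 7, by omega, by omega⟩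
  have hK := @k2 u v y x Z (u x) (fun k _ _ => huv k) (by omega)
    (fun d hd => hpure y d hy (by omega) (by omega)) hZ1 hcon le_rfl
  obtain ⟨t, ht2, htl, htu⟩ := exists_pow_mul (Z := Z) he (by omega)
  have key : ∀ t : ℕ, 2 ≤ t → lo ≤ x - 2 ^ t * e → u x < u (x - 2 ^ t * e) := by
    intro t ht
    induction t, ht using Nat.le_induction with
    | base =>
      intro hlo
      have h := hch 1 le_rfl hlo
      simp only [pow_one] at h
      have e4 : x - 2 ^ (1 + 1) * e = x - 2 ^ 2 * e := by norm_num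
      rw [e4] at h
      omega
    | succ t ht ih =>
      intro hlo
      have hp : (0 : ℤ) < 2 ^ t := by positivity
      have h2 : lo ≤ x - 2 ^ t * e := by
        have : (2 : ℤ) ^ (t + 1) * e = 2 * (2 ^ t * e) := by rw [pow_succ]; ring
        have h3 : 0 ≤ 2 ^ t * e := by positivity
        omega
      have h4 := ih h2
      have h5 := hch t (by omega) hlo
      have h6 := huv (x - 2 ^ t * e)
      omega
  have h1 := key t ht2 (by omega)
  have h2 := hK (m := x - 2 ^ t * e) (by omega) (by omega)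
  have h3 := huv (x - 2 ^ t * e)
  omega

theorem loc_right {u v : ℤ → ℤ} {hi x e D : ℤ} (huv : ∀ k, u k ≤ v k)
    (he : 1 ≤ e) (heD : e < 2 * D)
    (h0 : u x ≤ v (x + 2 * e))
    (hch : ∀ t : ℕ, 1 ≤ t → x + 2 ^ (t + 1) * e ≤ hi →
      2 * v (x + 2 ^ t * e) < u (x + 2 ^ (t + 1) * e) + u x)
    (hpure : ∀ y d, y ≤ hi → 2 * D ≤ d → y - x + 15 * D ≤ 16 * d → Pure2 u v x y d)
    {y : ℤ} (hy : y ≤ hi) (hyx : x + (15 * D + 12) ≤ y) : u x < u y := by
  have h := loc_left (u := fun k => u (-k)) (v := fun k => v (-k)) (lo := -hi) (x := -x) (e := e)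
    (D := D) (fun k => huv (-k)) he heD
    (by
      have e1 : -(-x - 2 * e) = x + 2 * e := by ring
      simp only [e1, neg_neg]; exact h0)
    (fun t ht hlo => by
      have e1 : -(-x - 2 ^ t * e) = x + 2 ^ t * e := by ring
      have e2 : -(-x - 2 ^ (t + 1) * e) = x + 2 ^ (t + 1) * e := by ring
      simp only [e1, e2, neg_neg]
      exact hch t ht (by omega))
    (fun z d hz hd1 hd2 => by
      have := (hpure (-z) d (by omega) hd1 (by omega)).refl
      simpa using this)
    (y := -y) (by omega) (by omega)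
  simpa using h

/-- For a type `(e, w)` with centre `xe` whose dyadic multiples are convex levels and whose
neighbourhood is convex on large levels, the minimum of `e * F k - w * k` is close to `xe`. -/
theorem localize {F : ℤ → ℤ} (hF : Monotone F) {lo hi xe e w D : ℤ} (he : 1 ≤ e)
    (heD : e < 2 * D) (hT : Ty F xe e w)
    (hL : ∀ t : ℕ, 1 ≤ t → lo ≤ (xe + e) - 2 ^ (t + 1) * e → ¬ NP F ((xe + e) - 2 ^ t * e) (2 ^ t * e))
    (hR : ∀ t : ℕ, 1 ≤ t → (xe - e) + 2 ^ (t + 1) * e ≤ hi →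
      ¬ NP F ((xe - e) + 2 ^ t * e) (2 ^ t * e))
    (hpL : ∀ c d, lo ≤ c - d → c + d ≤ xe + e → 2 * D ≤ d →
      (xe + e) - (c - d) + 15 * D ≤ 16 * d → ¬ NP F c d)
    (hpR : ∀ c d, xe - e ≤ c - d → c + d ≤ hi → 2 * D ≤ d →
      (c + d) - (xe - e) + 15 * D ≤ 16 * d → ¬ NP F c d)
    {A : ℤ} (hA1 : lo ≤ A) (hA2 : A ≤ hi) (h1 : lo ≤ xe - e) (h2 : xe + e ≤ hi)
    (hmin : ∀ k, lo ≤ k → k ≤ hi → e * F A - w * A ≤ e * F k - w * k) :
    |A - xe| ≤ 15 * D + 12 := by
  obtain ⟨y0, y1, y2, a1, a2, b1, b2, c1, c2, d1, d2⟩ := hT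
  set u : ℤ → ℤ := fun k => e * F k - w * k with hu
  set v : ℤ → ℤ := fun k => e * F (k + 1) - w * k with hv
  have huv : ∀ k, u k ≤ v k := by
    intro k
    have := mul_le_mul_of_nonneg_left (hF (show k ≤ k + 1 by omega)) (show 0 ≤ e by omega)
    simp only [hu, hv]; linarith
  have hcell : ∀ c d, ¬ NP F c d → 2 * v c < u (c - d) + u (c + d) := by
    intro c d h
    simp only [NP] at h
    push Not at h
    have : 0 < e * (F (c - d) + F (c + d) - 2 * F (c + 1)) := mul_pos (by omega) (by omega)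
    simp only [hu, hv]
    nlinarith
  have hu1 : u (xe + e) ≤ v (xe - e) := by
    have h3 := mul_le_mul_of_nonneg_left c1 (show 0 ≤ e by omega)
    have h4 := mul_le_mul_of_nonneg_left a2 (show 0 ≤ e by omega)
    simp only [hu, hv]
    have : e * y2 = e * y0 + 2 * e * w := by rw [← d1]; nlinarith
    nlinarith
  have hu2 : u (xe - e) ≤ v (xe + e) := by
    have h3 := mul_le_mul_of_nonneg_left a1 (show 0 ≤ e by omega)
    have h4 := mul_le_mul_of_nonneg_left c2 (show 0 ≤ e by omega)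
    simp only [hu, hv]
    have : e * y2 = e * y0 + 2 * e * w := by rw [← d1]; nlinarith
    nlinarith
  have hleft : ∀ y, lo ≤ y → y ≤ (xe + e) - (15 * D + 12) → u (xe + e) < u y := by
    intro y hy1 hy2
    refine loc_left (lo := lo) (e := e) (D := D) huv he heD ?_ ?_ ?_ hy1 hy2
    · have e1 : xe + e - 2 * e = xe - e := by ring
      rw [e1]; exact hu1
    · intro t ht hlo
      have := hcell _ _ (hL t ht hlo)
      have e1 : xe + e - 2 ^ t * e - 2 ^ t * e = xe + e - 2 ^ (t + 1) * e := by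
        rw [pow_succ]; ring
      have e2 : xe + e - 2 ^ t * e + 2 ^ t * e = xe + e := by ring
      rw [e1, e2] at this
      exact this
    · intro z d hz hd1 hd2 c hc1 hc2
      exact hcell _ _ (hpL c d (by omega) hc2 hd1 (by omega))
  have hright : ∀ y, y ≤ hi → (xe - e) + (15 * D + 12) ≤ y → u (xe - e) < u y := by
    intro y hy1 hy2
    refine loc_right (hi := hi) (e := e) (D := D) huv he heD ?_ ?_ ?_ hy1 hy2
    · have e1 : xe - e + 2 * e = xe + e := by ring
      rw [e1]; exact hu2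
    · intro t ht hlo
      have := hcell _ _ (hR t ht hlo)
      have e1 : xe - e + 2 ^ t * e + 2 ^ t * e = xe - e + 2 ^ (t + 1) * e := by
        rw [pow_succ]; ring
      have e2 : xe - e + 2 ^ t * e - 2 ^ t * e = xe - e := by ring
      rw [e1, e2] at this
      linarith
    · intro z d hz hd1 hd2 c hc1 hc2
      exact hcell _ _ (hpR c d hc1 (by omega) hd1 (by omega))
  rw [abs_le]
  constructor
  · by_contra hcon
    push Not at hcon
    have h3 := hleft A hA1 (by omega)
    have h4 := hmin (xe + e) (by omega) h2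
    simp only [hu] at h3
    omega
  · by_contra hcon
    push Not at hcon
    have h3 := hright A hA2 (by omega)
    have h4 := hmin (xe - e) h1 (by omega)
    simp only [hu] at h3
    omega

end H76AbSq
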