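import Pool.Agent.H76AbSq.Basic

/-! The maximum principle for functions that are strictly convex on many levels. -/

namespace H76AbSq

open Finset

/-- level `d` is strictly convex on `[y, x]` for the pair `u ≤ v` -/
def Pure2 (u v : ℤ → ℤ) (y x d : ℤ) : Prop :=
  ∀ c, y ≤ c - d → c + d ≤ x → 2 * v c < u (c - d) + u (c + d)

/-- step one: the maximum is close to the boundary -/
theorem kk1 {u v : ℤ → ℤ} {y x α j d : ℤ} (huv : ∀ k, y ≤ k → k ≤ x → u k ≤ v k)
    (hα : 0 ≤ α) (hmax : ∀ k, y + α ≤ k → k ≤ x - α → v k ≤ v j)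
    (hP : Pure2 u v y x d) (hd0 : 0 ≤ d) (hd1 : d ≤ j - y - α) (hj3 : 2 * j ≤ x + y) : False := by
  have h := hP j (by omega) (by omega)
  have h1 := huv (j - d) (by omega) (by omega)
  have h2 := huv (j + d) (by omega) (by omega)
  have h3 := hmax (j - d) (by omega) (by omega)
  have h4 := hmax (j + d) (by omega) (by omega)
  omega

/-- step two: doubling from the end point -/
theorem kk2 {u v : ℤ → ℤ} {y x α j z t : ℤ} (huv : ∀ k, y ≤ k → k ≤ x → u k ≤ v k)
    (hα : 0 ≤ α) (hj1 : y + α ≤ j) (hmax : ∀ k, y + α ≤ k → k ≤ x - α → v k ≤ v j)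
    (hz : z ≤ v j) (hy : u y ≤ z)
    (ht0 : 0 ≤ t) (ht : Pure2 u v y x t) (hd : Pure2 u v y x (j - y - t)) (hd0 : 0 ≤ j - y - t)
    (h1 : α ≤ 2 * t) (h2 : y + 2 * t ≤ x - α) (h3 : 2 * j - y - t ≤ x - α) : False := by
  have a1 := hd j (by omega) (by omega)
  have e1 : j - (j - y - t) = y + t := by ring
  have e2 : j + (j - y - t) = 2 * j - y - t := by ring
  rw [e1, e2] at a1
  have a2 := huv (2 * j - y - t) (by omega) (by omega)
  have a3 := hmax (2 * j - y - t) (by omega) h3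
  have b1 := ht (y + t) (by omega) (by omega)
  have e3 : y + t - t = y := by ring
  have e4 : y + t + t = y + 2 * t := by ring
  rw [e3, e4] at b1
  have b2 := huv (y + t) (by omega) (by omega)
  have b3 := huv (y + 2 * t) (by omega) (by omega)
  have b4 := hmax (y + 2 * t) (by omega) h2
  omega

theorem Pure2.refl {u v : ℤ → ℤ} {y x d : ℤ} (h : Pure2 u v y x d) :
    Pure2 (fun k => u (-k)) (fun k => v (-k)) (-x) (-y) d := by
  intro c h1 h2
  have := h (-c) (by omega) (by omega)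
  have e1 : -(c - d) = -c + d := by ring
  have e2 : -(c + d) = -c - d := by ring
  simp only [e1, e2]
  omega

/-- all large levels convex: no interior maximum. Left half. -/
theorem k2_left {u v : ℤ → ℤ} {y x Z z j : ℤ} (huv : ∀ k, y ≤ k → k ≤ x → u k ≤ v k)
    (hZ : 1 ≤ Z) (hpure : ∀ d, Z ≤ d → Pure2 u v y x d) (hlen : 7 * Z ≤ x - y)
    (hy : u y ≤ z) (hj1 : y + 2 * Z ≤ j)
    (hmax : ∀ k, y + 2 * Z ≤ k → k ≤ x - 2 * Z → v k ≤ v j) (hz : z ≤ v j)
    (hj3 : 2 * j ≤ x + y) : False := by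
  by_cases h : Z ≤ j - y - 2 * Z
  · exact kk1 huv (by omega) hmax (hpure Z le_rfl) (by omega) h hj3
  · push Not at h
    exact kk2 huv (by omega) hj1 hmax hz hy (by omega) (hpure Z le_rfl)
      (hpure (j - y - Z) (by omega)) (by omega) (by omega) (by omega) (by omega)

/-- all large levels convex: no interior maximum. -/
theorem k2 {u v : ℤ → ℤ} {y x Z z : ℤ} (huv : ∀ k, y ≤ k → k ≤ x → u k ≤ v k)
    (hZ : 1 ≤ Z) (hpure : ∀ d, Z ≤ d → Pure2 u v y x d) (hlen : 7 * Z ≤ x - y)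
    (hy : u y ≤ z) (hx : u x ≤ z) {m : ℤ} (hm1 : y + 2 * Z ≤ m) (hm2 : m ≤ x - 2 * Z) :
    v m < z := by
  by_contra hcon
  push Not at hcon
  obtain ⟨j, hj, hjmax⟩ := Finset.exists_max_image (Icc (y + 2 * Z) (x - 2 * Z)) v
    ⟨m, by simp [hm1, hm2]⟩
  rw [mem_Icc] at hj
  have hmax : ∀ k, y + 2 * Z ≤ k → k ≤ x - 2 * Z → v k ≤ v j := fun k h1 h2 =>
    hjmax k (by rw [mem_Icc]; exact ⟨h1, h2⟩)
  have hz : z ≤ v j := hcon.trans (hmax m hm1 hm2)
  rcases le_total (2 * j) (x + y) with h | h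
  · exact k2_left huv hZ hpure hlen hy hj.1 hmax hz h
  · refine k2_left (u := fun k => u (-k)) (v := fun k => v (-k)) (y := -x) (x := -y) (j := -j)
      (Z := Z) (z := z) (fun k h1 h2 => huv _ (by omega) (by omega)) hZ
      (fun d hd => (hpure d hd).refl) (by omega) (by simpa using hx) (by omega)
      (fun k h1 h2 => ?_) (by simpa using hz) (by omega)
    simpa using hmax (-k) (by omega) (by omega)

/-- counting of levels that are not convex. Left half. -/
theorem k1_left {u v : ℤ → ℤ} {y N j : ℤ} (huv : ∀ k, y ≤ k → k ≤ y + 2 * N → u k ≤ v k)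
    {α : ℤ} (hα1 : 2 * N ≤ 3 * α) (hα2 : 3 * α ≤ 2 * N + 2) (hN : 1 ≤ N)
    (hy : u y ≤ 0) (hj1 : y + α ≤ j)
    (hmax : ∀ k, y + α ≤ k → k ≤ y + 2 * N - α → v k ≤ v j) (hz : 0 ≤ v j)
    (hj3 : j ≤ y + N) (Zs : Finset ℤ)
    (hZs : ∀ d, 1 ≤ d → d ≤ N - 1 → ¬ Pure2 u v y (y + 2 * N) d → d ∈ Zs) :
    N ≤ 6 * (Zs.card : ℤ) + 4 := by
  set s := j - y - α with hs
  have hs0 : 0 ≤ s := by omega
  -- small levels are all in Zs
  have hsub1 : Icc 1 s ⊆ Zs := by
    intro d hd
    rw [mem_Icc] at hd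
    refine hZs d hd.1 (by omega) fun hP => ?_
    exact kk1 huv (by omega) hmax hP (by omega) (by omega) (by omega)
  have hc1 : s ≤ (Zs.card : ℤ) := by
    have := card_le_card hsub1
    rw [Int.card_Icc] at this
    omega
  -- the other levels
  set T := Icc (max ((α + 1) / 2) (2 * s + 2)) (α - 1) with hT
  have hsub2 : T ⊆ Zs ∪ (Zs.image fun d => α + s - d) := by
    intro t ht
    rw [hT, mem_Icc] at ht
    have ht1 : (α + 1) / 2 ≤ t := (le_max_left _ _).trans ht.1
    have ht2 : 2 * s + 2 ≤ t := (le_max_right _ _).trans ht.1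
    rw [mem_union, mem_image]
    by_contra hcon
    push Not at hcon
    obtain ⟨hc, hc'⟩ := hcon
    have p1 : Pure2 u v y (y + 2 * N) t := by
      by_contra h
      exact hc (hZs t (by omega) (by omega) h)
    have p2 : Pure2 u v y (y + 2 * N) (j - y - t) := by
      by_contra h
      have := hZs (j - y - t) (by omega) (by omega) h
      exact hc' _ this (by omega)
    exact kk2 huv (by omega) hj1 hmax hz hy (by omega) p1 p2 (by omega) (by omega) (by omega)
      (by omega)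
  have hc2 : (T.card : ℤ) ≤ 2 * Zs.card := by
    have h1 := card_le_card hsub2
    have h2 := card_union_le Zs (Zs.image fun d => α + s - d)
    have h3 := card_image_le (s := Zs) (f := fun d => α + s - d)
    omega
  have hc3 : T.card = (α - 1 + 1 - max ((α + 1) / 2) (2 * s + 2)).toNat := by
    rw [hT, Int.card_Icc]
  rcases le_total (2 * s + 2) ((α + 1) / 2) with h | h
  · rw [max_eq_left h] at hc3
    omega
  · rw [max_eq_right h] at hc3
    omega

/-- counting of levels that are not convex. -/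
theorem k1 {u v : ℤ → ℤ} {y N : ℤ} (huv : ∀ k, y ≤ k → k ≤ y + 2 * N → u k ≤ v k)
    (hN : 1 ≤ N) (hy : u y ≤ 0) (hx : u (y + 2 * N) ≤ 0) (hc : 0 ≤ v (y + N)) (Zs : Finset ℤ)
    (hZs : ∀ d, 1 ≤ d → d ≤ N - 1 → ¬ Pure2 u v y (y + 2 * N) d → d ∈ Zs) :
    N ≤ 6 * (Zs.card : ℤ) + 4 := by
  obtain ⟨α, hα1, hα2⟩ : ∃ α : ℤ, 2 * N ≤ 3 * α ∧ 3 * α ≤ 2 * N + 2 :=
    ⟨(2 * N + 2) / 3, by omega, by omega⟩
  obtain ⟨j, hj, hjmax⟩ := Finset.exists_max_image (Icc (y + α) (y + 2 * N - α)) v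
    ⟨y + N, by rw [mem_Icc]; omega⟩
  rw [mem_Icc] at hj
  have hmax : ∀ k, y + α ≤ k → k ≤ y + 2 * N - α → v k ≤ v j := fun k h1 h2 =>
    hjmax k (by rw [mem_Icc]; exact ⟨h1, h2⟩)
  have hz : 0 ≤ v j := hc.trans (hmax (y + N) (by omega) (by omega))
  rcases le_total j (y + N) with h | h
  · exact k1_left huv hα1 hα2 hN hy hj.1 hmax hz h Zs hZs
  · have e : -(y + 2 * N) + 2 * N = -y := by ring
    refine k1_left (u := fun k => u (-k)) (v := fun k => v (-k)) (y := -(y + 2 * N)) (N := N)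
      (j := -j) (fun k h1 h2 => huv _ (by omega) (by omega)) hα1 hα2 hN (by simpa using hx)
      (by omega) (fun k h1 h2 => ?_) (by simpa using hz) (by omega) Zs
      (fun d hd1 hd2 hP => hZs d hd1 hd2 fun hP' => hP ?_)
    · simpa using hmax (-k) (by omega) (by omega)
    · rw [e]; exact hP'.refl

/-- the staircase version of the counting lemma -/
theorem k1F {F : ℤ → ℤ} (hF : Monotone F) {c N : ℤ} (hN : 1 ≤ N) (h : NP F c N)
    (Zs : Finset ℤ)
    (hZs : ∀ d, 1 ≤ d → d ≤ N - 1 →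
      (∃ k, c - N ≤ k - d ∧ k + d ≤ c + N ∧ NP F k d) → d ∈ Zs) :
    N ≤ 6 * (Zs.card : ℤ) + 4 := by
  set s := F (c + N) - F (c - N) with hs
  refine k1 (u := fun k => 2 * N * (F k - F (c - N)) - s * (k - (c - N)))
    (v := fun k => 2 * N * (F (k + 1) - F (c - N)) - s * (k - (c - N))) (y := c - N) (N := N)
    ?_ hN ?_ ?_ ?_ Zs ?_
  · intro k _ _
    have := hF (show k ≤ k + 1 by omega)
    have h2 : 2 * N * (F k - F (c - N)) ≤ 2 * N * (F (k + 1) - F (c - N)) :=
      mul_le_mul_of_nonneg_left (by omega) (by omega)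
    linarith
  · simp
  · have e : c - N + 2 * N = c + N := by ring
    simp only [e]
    rw [hs]; ring_nf; rfl
  · have e : c - N + N = c := by ring
    simp only [e]
    simp only [NP] at h
    have : 2 * N * (F (c + 1) - F (c - N)) - s * (c - (c - N)) =
        N * (2 * F (c + 1) - F (c - N) - F (c + N)) := by rw [hs]; ring
    rw [this]
    exact mul_nonneg (by omega) (by omega)
  · intro d hd1 hd2 hP
    apply hZs d hd1 hd2
    simp only [Pure2] at hP
    push Not at hP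
    obtain ⟨k, hk1, hk2, hk⟩ := hP
    refine ⟨k, hk1, by omega, ?_⟩
    simp only [NP]
    by_contra hcon
    push Not at hcon
    have : 0 < N * (F (k - d) + F (k + d) - 2 * F (k + 1)) := mul_pos (by omega) (by omega)
    nlinarith

end H76AbSq
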