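import Pool.Agent.H76AbSq.Count

/-! Reduction to an interval on which all large levels are convex. -/

namespace H76AbSq

open Finset

/-- level `d` has no type on `[0, A]` -/
def Free (F : ℤ → ℤ) (A d : ℤ) : Prop := ∀ k w, 0 ≤ k - d → k + d ≤ A → ¬ Ty F k d w

theorem neg_after {F : ℤ → ℤ} (hF : Monotone F) {A d k1 k : ℤ} (hfree : Free F A d)
    (h0 : 0 ≤ k1 - d) (h1 : NP F k1 d) (h2 : k1 < k) (h3 : k + d ≤ A) : E F k d < 0 := by
  by_contra hcon
  push Not at hcon
  have e : k1 + 1 + ((k - k1 - 1).toNat : ℤ) = k := by omega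
  obtain ⟨k', w, g1, g2, g3⟩ := crossing hF h1 (k - k1 - 1).toNat (by rw [e]; exact hcon)
  exact hfree k' w (by omega) (by omega) g3

/-- the counting step once all type free small levels are convex on `[0, L]` -/
theorem finish {G : ℤ → ℤ} (hG : Monotone G) {A L R : ℤ} (TY : Finset (ℤ × ℤ))
    (hTY : ∀ e w k, 1 ≤ e → 0 ≤ k - e → k + e ≤ A → Ty G k e w → (e, w) ∈ TY)
    (hLA : L ≤ A) (hR : R = 6 * (TY.card : ℤ) + 6)
    (hpure : ∀ d, 1 ≤ d → d ≤ R → Free G A d → ∀ c, 0 ≤ c - d → c + d ≤ L → ¬ NP G c d) :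
    L - 100 * R + 1 ≤ 152160 * (TY.card : ℤ) := by
  classical
  -- levels with a non convex cell
  set Hs := (Icc 1 R).filter (fun d => ∃ c, C G 0 L c d) with hHs
  have hHcard : Hs.card ≤ TY.card := by
    have hsub : Hs ⊆ TY.image Prod.fst := by
      intro d hd
      rw [hHs, mem_filter, mem_Icc] at hd
      obtain ⟨⟨h1, h2⟩, c, g1, g2, g3, g4⟩ := hd
      have hnf : ¬ Free G A d := fun hf => hpure d h1 h2 hf c g1 g2 g4
      simp only [Free] at hnf
      push Not at hnf
      obtain ⟨k, w, a1, a2, a3⟩ := hnf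
      rw [mem_image]
      exact ⟨(d, w), hTY d w k h1 a1 a2 a3, rfl⟩
    exact (card_le_card hsub).trans card_image_le
  have hall : ∀ n : ℕ, ∀ c d, d.toNat = n → C G 0 L c d → d ≤ R := by
    intro n
    induction n using Nat.strong_induction_on with
    | _ n ih =>
      intro c d hdn hC
      obtain ⟨g1, g2, g3, g4⟩ := hC
      have h1 := k1F hG g3 g4 ((Icc 1 (d - 1)).filter
        (fun d' => ∃ k, c - d ≤ k - d' ∧ k + d' ≤ c + d ∧ NP G k d')) (by
          intro d' hd1 hd2 hk
          rw [mem_filter, mem_Icc]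
          exact ⟨⟨hd1, hd2⟩, hk⟩)
      have hsub : ((Icc 1 (d - 1)).filter
        (fun d' => ∃ k, c - d ≤ k - d' ∧ k + d' ≤ c + d ∧ NP G k d')) ⊆ Hs := by
        intro d' hd'
        rw [mem_filter, mem_Icc] at hd'
        obtain ⟨⟨a1, a2⟩, k, b1, b2, b3⟩ := hd'
        have hC' : C G 0 L k d' := ⟨by omega, by omega, a1, b3⟩
        have := ih d'.toNat (by omega) k d' rfl hC'
        rw [hHs, mem_filter, mem_Icc]
        exact ⟨⟨a1, this⟩, k, hC'⟩
      have h2 := card_le_card hsub
      omega
  have := count_types hG (lo := 0) (hi := L) (R := R) (fun c d hC => hall _ c d rfl hC)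
    (by omega) TY (fun e w k h1 h2 h3 h4 => hTY e w k h1 h2 (by omega) h4)
  omega

theorem mirror_ty {F : ℤ → ℤ} {A c e w : ℤ} (h : Ty (fun k => - F (A + 1 - k)) c e w) :
    Ty F (A - c) e w := by
  obtain ⟨y0, y1, y2, a1, a2, b1, b2, c1, c2, d1, d2⟩ := h
  simp only at a1 a2 b1 b2 c1 c2
  have e1 : A + 1 - (c - e) = A - c + e + 1 := by ring
  have e2 : A + 1 - (c - e + 1) = A - c + e := by ring
  have e3 : A + 1 - c = A - c + 1 := by ring
  have e4 : A + 1 - (c + 1) = A - c := by ring
  have e5 : A + 1 - (c + e) = A - c - e + 1 := by ring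
  have e6 : A + 1 - (c + e + 1) = A - c - e := by ring
  rw [e1] at a1; rw [e2] at a2; rw [e3] at b1; rw [e4] at b2; rw [e5] at c1; rw [e6] at c2
  exact ⟨-y2, -y1, -y0, by omega, by omega, by omega, by omega, by omega, by omega, by omega,
    by omega⟩

theorem top {F : ℤ → ℤ} (hF : Monotone F) {A : ℤ} (TY : Finset (ℤ × ℤ))
    (hTY : ∀ e w k, 1 ≤ e → 0 ≤ k - e → k + e ≤ A → Ty F k e w → (e, w) ∈ TY) :
    A ≤ 305600 * ((TY.card : ℤ) + 1) := by
  classical
  set R := 6 * (TY.card : ℤ) + 6 with hR
  by_cases hAR : A < 8 * R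
  · have : (0 : ℤ) ≤ TY.card := by positivity
    omega
  push Not at hAR
  have hRpos : 6 ≤ R := by
    have : (0 : ℤ) ≤ TY.card := by positivity
    omega
  obtain ⟨m, hm1, hm2⟩ : ∃ m : ℤ, 2 * m ≤ A ∧ A ≤ 2 * m + 1 := ⟨A / 2, by omega, by omega⟩
  by_cases hcase : ∀ d, 1 ≤ d → d ≤ R → Free F A d → ∀ c, 0 ≤ c - d → c + d ≤ m → ¬ NP F c d
  · have := finish hF (A := A) (L := m) (R := R) TY hTY (by omega) hR hcase
    omega
  · push Not at hcase
    obtain ⟨b, hb1, hbR, hbfree, c1, hc1, hc2, hNP⟩ := hcase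
    -- all free levels are concave to the right
    have hneg : ∀ a, 1 ≤ a → a ≤ R → Free F A a → ∀ k, c1 + 3 * R ≤ k → k + a ≤ A →
        E F k a < 0 := by
      intro a ha1 haR hafree k2 hk1 hk2
      by_contra hcon
      push Not at hcon
      have hpos : ∀ c, 0 ≤ c - a → c < k2 → 0 ≤ E F c a := by
        intro c hc hck
        by_contra hneg
        push Not at hneg
        have hN : NP F c a := by
          have := hF (show c ≤ c + 1 by omega)
          simp only [NP]; simp only [E] at hneg; omega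
        have := neg_after hF hafree hc hN hck hk2
        omega
      have ea : ((a.toNat : ℕ) : ℤ) = a := by omega
      have eb : ((b.toNat : ℕ) : ℤ) = b := by omega
      refine no_mix (F := F) (a := a.toNat) (b := b.toNat) (by omega) (c1 + 1 + b) ?_ ?_
      · intro k h1 h2
        rw [ea] at h2
        rw [eb]
        exact neg_after hF hbfree hc1 hNP (by omega) (by omega)
      · intro k h1 h2
        rw [ea, eb] at h1 h2
        rw [ea]
        exact hpos k (by omega) (by omega)
    have hpm : ∀ a, 1 ≤ a → a ≤ R → Free F A a → ∀ k, c1 + 3 * R ≤ k → k + a ≤ A →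
        F (k - a + 1) + F (k + a + 1) < 2 * F k := by
      intro a ha1 haR hafree k hk1 hk2
      by_contra hcon
      push Not at hcon
      have h1 := hneg a ha1 haR hafree k hk1 hk2
      simp only [E] at h1
      obtain ⟨w, hw⟩ := ty_of hF (k := k) (d := a) (m := F k) le_rfl (hF (by omega)) (by omega)
        hcon
      exact hafree k w (by omega) hk2 hw
    -- the mirror image
    set G : ℤ → ℤ := fun k => - F (A + 1 - k) with hG
    have hGm : Monotone G := by
      intro x y hxy
      simp only [hG]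
      exact neg_le_neg (hF (by omega))
    have hTYG : ∀ e w k, 1 ≤ e → 0 ≤ k - e → k + e ≤ A → Ty G k e w → (e, w) ∈ TY := by
      intro e w k h1 h2 h3 h4
      exact hTY e w (A - k) h1 (by omega) (by omega) (mirror_ty h4)
    have hfreeG : ∀ d, Free G A d → Free F A d := by
      intro d hd k w h1 h2 hT
      refine hd (A - k) w (by omega) (by omega) ?_
      have e0 : F = fun x => - (fun y => - F (A + 1 - y)) (A + 1 - x) := by
        funext x
        have : A + 1 - (A + 1 - x) = x := by ring
        simp only [this, neg_neg]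
      have hT' : Ty (fun x => - G (A + 1 - x)) k d w := by
        rw [e0] at hT
        exact hT
      exact mirror_ty hT'
    have := finish hGm (A := A) (L := A - m - 3 * R) (R := R) TY hTYG (by omega) hR (by
      intro d hd1 hdR hfree c hc1' hc2' hN
      have h1 := hpm d hd1 hdR (hfreeG d hfree) (A - c) (by omega) (by omega)
      simp only [NP, hG] at hN
      have e1 : A + 1 - (c - d) = A - c + d + 1 := by ring
      have e2 : A + 1 - (c + d) = A - c - d + 1 := by ring
      have e3 : A + 1 - (c + 1) = A - c := by ring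
      rw [e1, e2, e3] at hN
      omega)
    omega

end H76AbSq
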