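import Pool.Agent.H76AbSq.Top

/-! Binary words and their staircases. -/

namespace H76AbSq

open Finset

/-- number of letters different from `x` that occur before the `k`-th letter `x` -/
def stair (x : Bool) : List Bool → ℤ → ℤ
  | [], _ => 0
  | c :: w, k => if k ≤ 0 then 0 else if c = x then stair x w (k - 1) else stair x w k + 1

theorem stair_nonpos (x : Bool) (w : List Bool) {k : ℤ} (hk : k ≤ 0) : stair x w k = 0 := by
  cases w with
  | nil => rfl
  | cons c w => simp [stair, hk]

theorem stair_nonneg (x : Bool) (w : List Bool) (k : ℤ) : 0 ≤ stair x w k := by
  induction w generalizing k with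
  | nil => simp [stair]
  | cons c w ih =>
    simp only [stair]
    split_ifs
    · exact le_rfl
    · exact ih _
    · have := ih k; omega

theorem stair_mono (x : Bool) (w : List Bool) : Monotone (stair x w) := by
  induction w with
  | nil => intro a b _; simp [stair]
  | cons c w ih =>
    intro a b hab
    by_cases ha : a ≤ 0
    · rw [stair_nonpos x _ ha]; exact stair_nonneg _ _ _
    · have hb : ¬ b ≤ 0 := by omega
      simp only [stair, ha, hb, if_false]
      split_ifs
      · exact ih (by omega)
      · have := ih hab; omega

/-- lattice points of the staircase are prefixes -/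
theorem stair_point (x : Bool) (w : List Bool) (k y : ℤ) (h0 : 0 ≤ k) (h1 : k ≤ w.count x)
    (h2 : stair x w k ≤ y) (h3 : y ≤ stair x w (k + 1)) :
    ∃ t : ℕ, t ≤ w.length ∧ ((w.take t).count x : ℤ) = k ∧ ((w.take t).count (!x) : ℤ) = y := by
  induction w generalizing k y with
  | nil =>
    simp only [List.count_nil, Nat.cast_zero] at h1
    simp only [stair] at h2 h3
    exact ⟨0, by simp, by simp; omega, by simp; omega⟩
  | cons c w ih =>
    rcases eq_or_lt_of_le h0 with hk | hk
    · -- k = 0
      subst hk
      have e0 : stair x (c :: w) 0 = 0 := stair_nonpos _ _ le_rfl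
      rw [e0] at h2
      rcases eq_or_lt_of_le h2 with hy | hy
      · exact ⟨0, by simp, by simp, by simp [← hy]⟩
      · by_cases hc : c = x
        · have : stair x (c :: w) (0 + 1) = 0 := by
            simp [stair, hc, stair_nonpos]
          omega
        · have e1 : stair x (c :: w) (0 + 1) = stair x w (0 + 1) + 1 := by
            simp [stair, hc]
          rw [e1] at h3
          have hcx : c = !x := by
            cases c <;> cases x <;> simp_all
          obtain ⟨t, ht1, ht2, ht3⟩ := ih 0 (y - 1) le_rfl (by positivity)
            (by rw [stair_nonpos _ _ le_rfl]; omega) (by omega)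
          refine ⟨t + 1, by simpa using ht1, ?_, ?_⟩
          · rw [List.take_succ_cons, List.count_cons_of_ne (by simpa using hc)]
            exact ht2
          · rw [List.take_succ_cons, hcx, List.count_cons_self]
            push_cast; omega
    · have hk' : ¬ k ≤ 0 := by omega
      have hk'' : ¬ k + 1 ≤ 0 := by omega
      by_cases hc : c = x
      · simp only [stair, hk', hk'', if_false, hc, if_true] at h2 h3
        have h1' : k - 1 ≤ w.count x := by
          rw [hc, List.count_cons_self] at h1
          push_cast at h1; omega
        obtain ⟨t, ht1, ht2, ht3⟩ := ih (k - 1) y (by omega) h1' h2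
          (by rw [show k - 1 + 1 = k + 1 - 1 by ring]; exact h3)
        refine ⟨t + 1, by simpa using ht1, ?_, ?_⟩
        · rw [List.take_succ_cons, hc, List.count_cons_self]
          push_cast; omega
        · rw [List.take_succ_cons, hc, List.count_cons_of_ne (by simp)]
          exact ht3
      · simp only [stair, hk', hk'', if_false, hc] at h2 h3
        have hcx : c = !x := by
          cases c <;> cases x <;> simp_all
        have h1' : k ≤ w.count x := by
          rw [List.count_cons_of_ne (by simpa using hc)] at h1
          exact h1
        obtain ⟨t, ht1, ht2, ht3⟩ := ih k (y - 1) (by omega) h1' (by omega) (by omega)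
        refine ⟨t + 1, by simpa using ht1, ?_, ?_⟩
        · rw [List.take_succ_cons, List.count_cons_of_ne (by simpa using hc)]
          exact ht2
        · rw [List.take_succ_cons, hcx, List.count_cons_self]
          push_cast; omega

end H76AbSq
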